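import Pool.Agent.Y714.KF.Stm

set_option autoImplicit false
set_option linter.unusedSectionVars false

/-! KF-BIJ: points and normalised reduced lattices. -/

namespace Pool.Agent.Y672.KF

open Pool.Agent.Y714.KF
open NumberField FractionalIdeal Module Finset ComplexConjugate
open scoped nonZeroDivisors

section

variable {K : Type} [Field K] [NumberField K]

/-- equivalence of pairs under scalars and rational matrices -/
def E (P Q : K × K) : Prop := ∃ x : K, x ≠ 0 ∧ ∃ a b c d : ℚ, a * d - b * c ≠ 0 ∧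
  Q = x • ((a : K) * P.1 + (b : K) * P.2, (c : K) * P.1 + (d : K) * P.2)

theorem E.symm {P Q : K × K} (h : E P Q) : E Q P := by
  obtain ⟨x, hx, a, b, c, d, hd, rfl⟩ := h
  have hdK : ((a : K) * d - b * c) ≠ 0 := by exact_mod_cast hd
  refine ⟨x⁻¹ * ((a : K) * d - b * c)⁻¹, mul_ne_zero (inv_ne_zero hx) (inv_ne_zero hdK),
    d, -b, -c, a, by intro h; apply hd; linarith, ?_⟩
  refine Prod.ext ?_ ?_
  · simp only [Prod.smul_fst, Prod.smul_snd, smul_eq_mul]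
    push_cast
    field_simp
    ring
  · simp only [Prod.smul_fst, Prod.smul_snd, smul_eq_mul]
    push_cast
    field_simp
    ring

theorem E.trans {P Q S : K × K} (h : E P Q) (h' : E Q S) : E P S := by
  obtain ⟨x, hx, a, b, c, d, hd, rfl⟩ := h
  obtain ⟨y, hy, a', b', c', d', hd', rfl⟩ := h'
  refine ⟨y * x, mul_ne_zero hy hx, a' * a + b' * c, a' * b + b' * d, c' * a + d' * c,
    c' * b + d' * d, ?_, ?_⟩
  · have : (a' * a + b' * c) * (c' * b + d' * d) - (a' * b + b' * d) * (c' * a + d' * c) =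
        (a' * d' - b' * c') * (a * d - b * c) := by ring
    rw [this]
    exact mul_ne_zero hd' hd
  · refine Prod.ext ?_ ?_
    · simp only [Prod.smul_fst, Prod.smul_snd, smul_eq_mul]
      push_cast
      ring
    · simp only [Prod.smul_fst, Prod.smul_snd, smul_eq_mul]
      push_cast
      ring

theorem E.smul (P : K × K) {x : K} (hx : x ≠ 0) : E P (x • P) :=
  ⟨x, hx, 1, 0, 0, 1, by norm_num, by refine Prod.ext ?_ ?_ <;> simp⟩

theorem E.gl (P : K × K) {a b c d : ℚ} (h : a * d - b * c ≠ 0) :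
    E P ((a : K) * P.1 + (b : K) * P.2, (c : K) * P.1 + (d : K) * P.2) :=
  ⟨1, one_ne_zero, a, b, c, d, h, by rw [one_smul]⟩

theorem E.nd {P Q : K × K} (h : E P Q) (hP : Nd P) : Nd Q := by
  obtain ⟨x, hx, a, b, c, d, hd, rfl⟩ := h
  exact (hP.gl hd).smul hx

theorem E.of_Lt {P Q : K × K} (hP : Ind P) (hQ : Ind Q) (h : Lt P = Lt Q) : E P Q := by
  obtain ⟨m, n, k, l, hdet, rfl⟩ := Lt_eq hP hQ h
  have hd0 : ((m : ℚ) * l - n * k) ≠ 0 := by
    rcases hdet with h | h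
    · have : (m : ℚ) * l - n * k = 1 := by exact_mod_cast congrArg (Int.cast : ℤ → ℚ) h
      rw [this]; norm_num
    · have : (m : ℚ) * l - n * k = -1 := by exact_mod_cast congrArg (Int.cast : ℤ → ℚ) h
      rw [this]; norm_num
  have e : glz m n k l P = (((m : ℚ) : K) * P.1 + ((n : ℚ) : K) * P.2,
      ((k : ℚ) : K) * P.1 + ((l : ℚ) : K) * P.2) := by simp [glz]
  rw [e]
  exact E.gl P hd0

theorem E.rel {θ θ' : K} (h : E (1, θ) (1, θ')) : Rel K θ θ' := by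
  obtain ⟨x, hx, a, b, c, d, hd, he⟩ := h
  have h1 := congrArg Prod.fst he
  have h2 := congrArg Prod.snd he
  simp only [Prod.smul_fst, Prod.smul_snd, smul_eq_mul, mul_one] at h1 h2
  refine ⟨d, c, b, a, by intro h; apply hd; linarith, ?_⟩
  rw [h2]
  linear_combination (-(c + d * θ)) * h1

theorem Rel.e {θ θ' : K} (hi : Ind ((1 : K), θ)) (h : Rel K θ θ') : E (1, θ) (1, θ') := by
  obtain ⟨a, b, c, d, hd, he⟩ := h
  have h0 : (c : K) * θ + d ≠ 0 := by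
    intro h0
    have := hi d c (by simp only; linear_combination h0)
    apply hd
    rw [this.1, this.2]; ring
  refine ⟨((c : K) * θ + d)⁻¹, inv_ne_zero h0, d, c, b, a, by intro h; apply hd; linarith, ?_⟩
  refine Prod.ext ?_ ?_
  · simp only [Prod.smul_fst, smul_eq_mul, mul_one]
    rw [eq_comm, inv_mul_eq_one₀ h0]
    ring
  · simp only [Prod.smul_snd, smul_eq_mul, mul_one]
    rw [eq_comm, inv_mul_eq_iff_eq_mul₀ h0]
    linear_combination -he

theorem hp_smul {P : K × K} {x : K} (hx : x ≠ 0) : hp K (x • P) = hp K P := by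
  unfold hp
  rw [pm_vec_smul, ct_smul]
  have h1 : (nm (sp x * ct P) : ℚ) = nm (sp x) * nm (ct P) := by
    rw [nm, nm, nm, map_mul]
  have h2 : (0 : ℝ) < ((nm (sp x) : ℚ) : ℝ) := by exact_mod_cast nm_pos (sp_ne hx)
  rw [h1]
  push_cast
  rw [mul_pow, mul_div_mul_left _ _ (by positivity)]

/-- reduced pairs in one class have proportional lattices -/
theorem exists_Lt_smul {P Q : K × K} (hn : 2 ≤ finrank ℚ K) (hP : Nd P) (h1 : Red P)
    (h2 : Red Q) (h : E P Q) : ∃ y : K, y ≠ 0 ∧ Lt Q = Lt (y • P) := by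
  have hQ := h.nd hP
  obtain ⟨x, hx, a, b, c, d, hd, he⟩ := h
  obtain ⟨r, hr, hL⟩ := red_unique_lt (P := x • P) (P' := Q) ((hP.smul hx).ind hn) (hQ.ind hn)
    (h1.smul hx) h2 ⟨a, b, c, d, by
      rw [he]; simp only [Prod.smul_fst, Prod.smul_snd, smul_eq_mul]; ring, by
      rw [he]; simp only [Prod.smul_fst, Prod.smul_snd, smul_eq_mul]; ring⟩
  refine ⟨(r : K) * x, mul_ne_zero (by exact_mod_cast hr) hx, ?_⟩
  rw [hL, smul_smul]

theorem hp_eq {P Q : K × K} (hodd : Odd (finrank ℚ K)) (hn : 2 ≤ finrank ℚ K) (hP : Nd P)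
    (h1 : Red P) (h2 : Red Q) (h : E P Q) : hp K Q = hp K P := by
  obtain ⟨y, hy, hL⟩ := exists_Lt_smul hn hP h1 h2 h
  have hQ := h.nd hP
  obtain ⟨-, e1, -, -⟩ := Lt_inv hodd hn (hP.smul hy) (hQ.ind hn) hL.symm
  rw [← hp_smul (P := P) hy]
  unfold hp
  rw [e1, ct_congr hL]

theorem ht_eq (h2 : S_DESC K) (hodd : Odd (finrank ℚ K)) (hn : 3 ≤ finrank ℚ K) {θ : K}
    (hθ : Nd ((1 : K), θ)) {Q : K × K} (hQ : Red Q) (h : E (1, θ) Q) : ht K θ = hp K Q := by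
  have hn2 : 2 ≤ finrank ℚ K := by omega
  have hQN := h.nd hθ
  unfold ht
  apply IsLeast.csInf_eq
  constructor
  · obtain ⟨x, hx, a, b, c, d, hd, he⟩ := h
    refine ⟨d, c, b, a, by intro h; apply hd; linarith, ?_⟩
    rw [he, hp_smul hx]
    congr 1
    refine Prod.ext ?_ ?_
    · simp only [mul_one]; ring
    · simp only [mul_one]; ring
  · rintro r ⟨a, b, c, d, hd, rfl⟩
    have hE : E (1, θ) ((c : K) * θ + (d : K), (a : K) * θ + (b : K)) := by
      have := E.gl ((1 : K), θ) (a := d) (b := c) (c := b) (d := a)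
        (by intro h; apply hd; linarith)
      convert this using 1
      refine Prod.ext ?_ ?_
      · simp only [mul_one]; ring
      · simp only [mul_one]; ring
    have hN := hE.nd hθ
    obtain ⟨Q', hQ', ⟨a', b', c', d', hd', he'⟩, hle⟩ := h2 hodd hn _ hN
    have hE' : E ((c : K) * θ + (d : K), (a : K) * θ + (b : K)) Q' := by
      rw [he']; exact E.gl _ hd'
    have hN' := hE'.nd hN
    have e1 : hp K Q' = hp K Q := hp_eq hodd hn2 hQN hQ hQ' (h.symm.trans (hE.trans hE'))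
    rw [← e1]
    unfold hp
    have g1 : (0 : ℝ) < ((nm (ct Q') : ℚ) : ℝ) := by
      exact_mod_cast nm_pos (ct_ne (hN'.ind hn2).fst)
    have g2 : (0 : ℝ) < ((nm (ct ((c : K) * θ + (d : K), (a : K) * θ + (b : K))) : ℚ) : ℝ) := by
      exact_mod_cast nm_pos (ct_ne (hN.ind hn2).fst)
    rw [div_le_div_iff₀ (by positivity) (by positivity)]
    exact hle

theorem exists_unit {y : K} (hy : y ≠ 0) (h : sp y = 1) : ∃ u : (𝓞 K)ˣ, ((u : 𝓞 K) : K) = y := by
  have h1 : y ∈ (1 : FI K) := by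
    rw [← h]; exact mem_spanSingleton_self _ _
  have h2 : y⁻¹ ∈ (1 : FI K) := by
    have : sp y⁻¹ = 1 := by
      have h3 : sp (y * y⁻¹) = 1 := by rw [mul_inv_cancel₀ hy]; exact spanSingleton_one
      rwa [sp_mul, h, one_mul] at h3
    rw [← this]; exact mem_spanSingleton_self _ _
  rw [mem_one_iff] at h1 h2
  obtain ⟨a, ha⟩ := h1
  obtain ⟨b, hb⟩ := h2
  have hab : a * b = 1 := by
    apply FaithfulSMul.algebraMap_injective (𝓞 K) K
    rw [map_mul, ha, hb, mul_inv_cancel₀ hy, map_one]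
  exact ⟨⟨a, b, hab, by rw [mul_comm]; exact hab⟩, ha⟩

theorem sp_unit (u : (𝓞 K)ˣ) : sp ((u : 𝓞 K) : K) = 1 := by
  have h1 : sp ((u : 𝓞 K) : K) ≤ 1 := sp_le.2 ((mem_one_iff _).2 ⟨u, rfl⟩)
  have h2 : sp (((u⁻¹ : (𝓞 K)ˣ) : 𝓞 K) : K) ≤ 1 :=
    sp_le.2 ((mem_one_iff _).2 ⟨((u⁻¹ : (𝓞 K)ˣ) : 𝓞 K), rfl⟩)
  have h3 : sp ((u : 𝓞 K) : K) * sp (((u⁻¹ : (𝓞 K)ˣ) : 𝓞 K) : K) = 1 := by
    rw [← sp_mul]
    have : ((u : 𝓞 K) : K) * (((u⁻¹ : (𝓞 K)ˣ) : 𝓞 K) : K) = 1 := by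
      rw [← map_mul (algebraMap (𝓞 K) K)]
      simp
    rw [this]
    exact spanSingleton_one
  refine le_antisymm h1 ?_
  calc (1 : FI K) = sp ((u : 𝓞 K) : K) * sp (((u⁻¹ : (𝓞 K)ˣ) : 𝓞 K) : K) := h3.symm
    _ ≤ sp ((u : 𝓞 K) : K) * 1 := by gcongr
    _ = _ := mul_one _

/-- the class of a lattice -/
def cls (M : Submodule ℤ K) : Set K := {θ' | ∃ P : K × K, M = Lt P ∧ Nd P ∧ E P (1, θ')}

theorem cls_Lt {P : K × K} (hn : 2 ≤ finrank ℚ K) (hP : Nd P) :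
    cls (Lt P) = {θ' | E P (1, θ')} := by
  ext θ'
  constructor
  · rintro ⟨P', h1, h2, h3⟩
    exact (E.of_Lt (hP.ind hn) (h2.ind hn) h1).trans h3
  · intro h
    exact ⟨P, rfl, hP, h⟩

theorem E.one {P : K × K} (h : P.1 ≠ 0) : E P (1, P.2 / P.1) := by
  have h1 : ((1 : K), P.2 / P.1) = P.1⁻¹ • P := by
    refine Prod.ext ?_ ?_
    · simp only [Prod.smul_fst, smul_eq_mul]
      rw [inv_mul_cancel₀ h]
    · simp only [Prod.smul_snd, smul_eq_mul]
      rw [div_eq_inv_mul]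
  rw [h1]
  exact E.smul P (inv_ne_zero h)

theorem cls_eq {θ : K} {Q : K × K} (hn : 2 ≤ finrank ℚ K) (hθ : Nd ((1 : K), θ))
    (h : E (1, θ) Q) : cls (Lt Q) = {θ' | Rel K θ θ'} := by
  rw [cls_Lt hn (h.nd hθ)]
  ext θ'
  constructor
  · intro h'
    exact (h.trans h').rel
  · intro h'
    exact h.symm.trans (Rel.e (hθ.ind hn) h')

variable (K) in
theorem bij (h1 : S_LOC K) (h2 : S_DESC K) (h3 : S_GEN K) (h4 : S_CR K) : S_BIJ K := by
  classical
  intro hodd hn R hR1 hR2 κ B hB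
  have hn2 : 2 ≤ finrank ℚ K := by omega
  obtain ⟨C0, -, hext⟩ := ineqs (J := K →+* ℂ) (by rw [card_emb]; exact hodd)
  set A : (FI K)ˣ → Set (Submodule ℤ K) := fun r =>
    {M ∈ SL (κ r) (r : FI K) (B * ((nm (r : FI K) : ℚ) : ℝ) ^ 2) |
      ∀ p : ℕ, p.Prime → Loc p r M} with hA
  have hnm : ∀ r : (FI K)ˣ, (0 : ℝ) < ((nm (r : FI K) : ℚ) : ℝ) := fun r => by
    exact_mod_cast nm_pos r.ne_zero
  have hfin : ∀ r, (A r).Finite := by
    intro r
    obtain ⟨C, -, hC⟩ := h4 hodd hn (κ r)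
    exact (hC r (B * ((nm (r : FI K) : ℚ) : ℝ) ^ 2) (by have := hnm r; positivity)).1.subset
      fun M hM => hM.1
  -- the elements of A
  have hmem : ∀ r M, M ∈ A r → ∃ P : K × K, M = Lt P ∧ ct P = r ∧ Nd P ∧ Nz (κ r) (vec P) ∧
      pm (vec P) ≤ B * ((nm (r : FI K) : ℚ) : ℝ) ^ 2 ∧ Red P := by
    rintro r M ⟨⟨P, rfl, e1, e2, e3, e4⟩, e5⟩
    obtain ⟨e6, e7⟩ := (h1 hodd r P (e2.ind hn2) e1).1 e5
    exact ⟨P, rfl, e6, e2, e3, e4, e7⟩
  set T : Finset (Σ _ : (FI K)ˣ, Submodule ℤ K) := R.sigma fun r => (hfin r).toFinset with hT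
  have hTm : ∀ r M, (⟨r, M⟩ : Σ _ : (FI K)ˣ, Submodule ℤ K) ∈ T ↔ r ∈ R ∧ M ∈ A r := by
    intro r M
    rw [hT, mem_sigma]
    simp
  set f : (Σ _ : (FI K)ˣ, Submodule ℤ K) → Set K := fun x => cls x.2 with hf
  have hinj : Set.InjOn f T := by
    rintro ⟨r, M⟩ hx ⟨r', M'⟩ hx' hff
    obtain ⟨hr, hM⟩ := (hTm r M).1 hx
    obtain ⟨hr', hM'⟩ := (hTm r' M').1 hx'
    obtain ⟨P, rfl, c1, c2, c3, c4, c5⟩ := hmem r M hM
    obtain ⟨P', rfl, c1', c2', c3', c4', c5'⟩ := hmem r' M' hM'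
    have g1 : P'.2 / P'.1 ∈ cls (Lt P') := by
      rw [cls_Lt hn2 c2']
      exact E.one (c2'.ind hn2).fst
    have g2 : P'.2 / P'.1 ∈ cls (Lt P) := by
      have : cls (Lt P) = cls (Lt P') := hff
      rw [this]; exact g1
    rw [cls_Lt hn2 c2] at g2
    have g3 : E P P' := g2.trans (E.one (c2'.ind hn2).fst).symm
    obtain ⟨y, hy, hL⟩ := exists_Lt_smul hn2 c2 c5 c5' g3
    have g4 : ct P' = sp y * ct P := by rw [ct_congr hL, ct_smul]
    rw [c1, c1'] at g4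
    have g5 : r' = r := hR2 r' hr' r hr y hy g4
    subst g5
    have g6 : sp y = 1 := by
      have : (r' : FI K) * (r' : FI K)⁻¹ = sp y * (r' : FI K) * (r' : FI K)⁻¹ := by rw [← g4]
      rw [mul_assoc, mul_inv_cancel₀ r'.ne_zero, mul_one] at this
      exact this.symm
    obtain ⟨u, rfl⟩ := exists_unit hy g6
    obtain ⟨-, -, e2, -⟩ := Lt_inv hodd hn2 (c2.smul hy) (c2'.ind hn2) hL.symm
    have hpos := c2.pm_pos hn2
    have g7 : Nz (κ r') (fun σ => σ ((u : 𝓞 K) : K) • vec P σ) := by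
      intro j
      rw [← vec_smul, ← e2]
      exact c3' j
    have g8 := unit_nz_unique hpos (hext _ hpos).1 hodd (κ r') u c3 g7
    have g9 : Lt P' = Lt P := by
      rw [hL]
      rcases g8 with rfl | rfl
      · simp
      · ext z
        rw [mem_Lt_smul (by simp), Units.val_neg, Units.val_one]
        have h0 : ((-1 : 𝓞 K) : K) = -1 := by simp
        have : ((-1 : 𝓞 K) : K)⁻¹ * z = -z := by
          rw [h0]
          norm_num
        rw [this, Submodule.neg_mem_iff]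
    rw [g9]
  have himg : {C : Set K | ∃ θ : K, IntermediateField.adjoin ℚ {θ} = ⊤ ∧ C = {θ' | Rel K θ θ'} ∧
      ht K θ ≤ B} = ↑(T.image f) := by
    ext C
    rw [Finset.mem_coe, mem_image]
    constructor
    · rintro ⟨θ, hθ, rfl, hB'⟩
      rw [h3 θ] at hθ
      obtain ⟨Q, hQ, ⟨a, b, c, d, hd, he⟩, -⟩ := h2 hodd hn _ hθ
      have hE : E (1, θ) Q := by rw [he]; exact E.gl _ hd
      have hQN := hE.nd hθ
      have hct : ct Q ≠ 0 := ct_ne (hQN.ind hn2).fst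
      obtain ⟨r, hr, x, hx, hxr⟩ := hR1 (Units.mk0 (ct Q) hct)
      rw [Units.val_mk0] at hxr
      have e1 : ct (x⁻¹ • Q) = r := by
        rw [ct_smul, hxr, ← mul_assoc, ← sp_mul, inv_mul_cancel₀ hx]
        rw [show sp (1 : K) = 1 from spanSingleton_one, one_mul]
      have hQ1 : Nd (x⁻¹ • Q) := hQN.smul (inv_ne_zero hx)
      have hpos := hQ1.pm_pos hn2
      obtain ⟨u, hu⟩ := exists_unit_nz hpos (hext _ hpos).1 (κ r)
      have hu0 : ((u : 𝓞 K) : K) ≠ 0 := Units.coe_ne_zero u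
      set Q2 : K × K := ((u : 𝓞 K) : K) • (x⁻¹ • Q) with hQ2
      have e2 : ct Q2 = r := by rw [hQ2, ct_smul, e1, sp_unit, one_mul]
      have e3 : Nd Q2 := hQ1.smul hu0
      have e4 : Red Q2 := (hQ.smul (inv_ne_zero hx)).smul hu0
      have e5 : Nz (κ r) (vec Q2) := by rw [hQ2, vec_smul]; exact hu
      have e6 : E (1, θ) Q2 := (hE.trans (E.smul Q (inv_ne_zero hx))).trans (E.smul _ hu0)
      have e7 : ht K θ = hp K Q2 := ht_eq h2 hodd hn hθ e4 e6
      refine ⟨⟨r, Lt Q2⟩, (hTm _ _).2 ⟨hr, ⟨Q2, rfl, e2.le, e3, e5, ?_⟩, ?_⟩, ?_⟩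
      · rw [e7, hp, e2, div_le_iff₀ (by have := hnm r; positivity)] at hB'
        exact hB'
      · exact (h1 hodd r Q2 (e3.ind hn2) e2.le).2 ⟨e2, e4⟩
      · exact cls_eq hn2 hθ e6
    · rintro ⟨⟨r, M⟩, hx, rfl⟩
      obtain ⟨hr, hM⟩ := (hTm r M).1 hx
      obtain ⟨P, rfl, c1, c2, c3, c4, c5⟩ := hmem r M hM
      have hE := E.one (c2.ind hn2).fst
      have hN : Nd ((1 : K), P.2 / P.1) := hE.nd c2
      refine ⟨P.2 / P.1, (h3 _).2 hN, cls_eq hn2 hN hE.symm, ?_⟩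
      rw [ht_eq h2 hodd hn hN c5 hE.symm, hp, c1, div_le_iff₀ (by have := hnm r; positivity)]
      exact c4
  rw [himg, Set.ncard_coe_finset, card_image_of_injOn hinj, hT, card_sigma]
  refine sum_congr rfl fun r _ => ?_
  rw [← Set.ncard_eq_toFinset_card _ (hfin r)]

end

end Pool.Agent.Y672.KF
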